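import Mathlib

set_option autoImplicit false

namespace Pool.Agent.Results.MP_bbf25a_nt.VerticalLines

/-- Solutions of the Pell-type equation `Z (Z + 1) = a² (a² + 1) W²` with `W` as large as we like. -/
theorem exists_pell (a : ℤ) (ha : 0 < a) (B : ℕ) :
    ∃ Z W : ℤ, (B : ℤ) < W ∧ 0 ≤ Z ∧ Z ^ 2 + Z = a ^ 2 * (a ^ 2 + 1) * W ^ 2 := by
  induction B with
  | zero => exact ⟨a ^ 2, 1, by norm_num, by positivity, by ring⟩
  | succ B ih =>
    obtain ⟨Z, W, hBW, hZ, h⟩ := ih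
    have hW : 0 < W := lt_of_le_of_lt (by positivity) hBW
    refine ⟨(2 * a ^ 2 + 1) * Z + a ^ 2 + 2 * a ^ 2 * (a ^ 2 + 1) * W,
      2 * Z + 1 + (2 * a ^ 2 + 1) * W, ?_, by positivity, ?_⟩
    · push_cast
      have : 0 ≤ a ^ 2 * W := by positivity
      nlinarith
    · linear_combination h

/-- The key algebraic fact: the points `k = (a, b)` and `(x, y)` with `x + i y = (m + i n) (a + i b)`
satisfy the resonance equation. -/
theorem key (a Z W : ℤ) (h : Z ^ 2 + Z = a ^ 2 * (a ^ 2 + 1) * W ^ 2)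
    (m n b x y : ℤ) (hm : m = Z + 1 + a * W) (hn : n = a ^ 2 * W)
    (hb : b = 1 + (a ^ 2 + 1) * a * W * (2 * Z + 1 + 2 * a * W))
    (hx : x = m * a - n * b) (hy : y = m * b + n * a) :
    x * (a ^ 2 + b ^ 2) * (a ^ 2 + b ^ 2 - 2 * a * x - 2 * b * y)
      = a * (x ^ 2 + y ^ 2) * (x ^ 2 + y ^ 2 - 2 * a * x - 2 * b * y) := by
  have h1 : n * b * (2 * m - 1)
      = a * ((m ^ 2 + n ^ 2) ^ 2 - 2 * m * (m ^ 2 + n ^ 2) + 2 * m ^ 2 - m) := by
    subst hm hn hb
    linear_combination (a ^ 5 * W ^ 2 - 3 * a ^ 3 * W ^ 2 - 4 * a ^ 2 * Z * W - 2 * a ^ 2 * W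
      - a * Z ^ 2 - a * Z - a) * h
  subst hx hy
  linear_combination (a ^ 2 + b ^ 2) ^ 2 * h1

theorem mem_of_pell (a : ℤ) (ha : 0 < a) (Z W : ℤ) (hZ : 0 ≤ Z) (hW : 0 < W)
    (h : Z ^ 2 + Z = a ^ 2 * (a ^ 2 + 1) * W ^ 2) :
    ∃ b x y : ℤ, W < b ∧
      x * (a ^ 2 + b ^ 2) * (a ^ 2 + b ^ 2 - 2 * a * x - 2 * b * y)
        = a * (x ^ 2 + y ^ 2) * (x ^ 2 + y ^ 2 - 2 * a * x - 2 * b * y) ∧
      a * x * (a - x) ≠ 0 ∧ Int.gcd a b = 1 := by
  set P : ℤ := 2 * Z + 1 + 2 * a * W with hP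
  set b : ℤ := 1 + (a ^ 2 + 1) * a * W * P with hb
  set m : ℤ := Z + 1 + a * W with hm
  set n : ℤ := a ^ 2 * W with hn
  have haW : 0 < a * W := by positivity
  have hPpos : 1 < P := by nlinarith
  have hmP : m ≤ P := by rw [hm, hP]; nlinarith
  have hmpos : 0 < m := by rw [hm]; positivity
  have hbW : W < b := by
    have h1 : 1 * W * 1 < (a ^ 2 + 1) * a * W * P := by
      have h2 : 1 ≤ (a ^ 2 + 1) * a := by nlinarith [sq_nonneg a]
      have h3 : 1 * W ≤ (a ^ 2 + 1) * a * W := mul_le_mul_of_nonneg_right h2 hW.le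
      have h4 : 0 < (a ^ 2 + 1) * a * W := by positivity
      nlinarith
    rw [hb]; linarith
  have hxneg : m * a - n * b < 0 := by
    have h1 : m * a < n * b := by
      have h2 : m * a ≤ P * a := mul_le_mul_of_nonneg_right hmP ha.le
      have h3 : P * a ≤ n * ((a ^ 2 + 1) * a * W * P) := by
        have h4 : 1 ≤ n * ((a ^ 2 + 1) * W) := by
          have : 0 < n * ((a ^ 2 + 1) * W) := by rw [hn]; positivity
          linarith
        have h5 : 0 < P * a := by positivity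
        nlinarith
      have h6 : 0 < n := by rw [hn]; positivity
      calc m * a ≤ P * a := h2
        _ ≤ n * ((a ^ 2 + 1) * a * W * P) := h3
        _ < n * b := by
          apply mul_lt_mul_of_pos_left _ h6
          rw [hb]; linarith
    linarith
  refine ⟨b, m * a - n * b, m * b + n * a, hbW, ?_, ?_, ?_⟩
  · exact key a Z W h m n b _ _ rfl rfl rfl rfl rfl
  · have h1 : a - (m * a - n * b) ≠ 0 := by
      have : 0 < a - (m * a - n * b) := by linarith
      exact this.ne'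
    exact mul_ne_zero (mul_ne_zero ha.ne' hxneg.ne) h1
  · rw [← Int.isCoprime_iff_gcd_eq_one]
    refine ⟨-((a ^ 2 + 1) * W * P), 1, ?_⟩
    rw [hb]; ring

theorem infinite_of_pos (a : ℤ) (ha : 0 < a) :
    {b : ℤ | ∃ x y : ℤ,
      x * (a ^ 2 + b ^ 2) * (a ^ 2 + b ^ 2 - 2 * a * x - 2 * b * y)
        = a * (x ^ 2 + y ^ 2) * (x ^ 2 + y ^ 2 - 2 * a * x - 2 * b * y) ∧
      a * x * (a - x) ≠ 0 ∧ Int.gcd (Int.gcd a b) (Int.gcd x y) = 1}.Infinite := by
  apply Set.infinite_of_not_bddAbove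
  rintro ⟨B, hB⟩
  obtain ⟨Z, W, hBW, hZ, h⟩ := exists_pell a ha B.toNat
  have hW : 0 < W := lt_of_le_of_lt (by positivity) hBW
  obtain ⟨b, x, y, hWb, h1, h2, h3⟩ := mem_of_pell a ha Z W hZ hW h
  have hmem := hB (a := b) ⟨x, y, h1, h2, by rw [h3]; simp⟩
  have : B ≤ B.toNat := Int.self_le_toNat B
  linarith

/-- For every nonzero integer `a` the vertical line through `a` contains infinitely many points of
the primitive wavevector set: there are infinitely many integers `b` for which the resonance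
equation has an integer solution `(x, y)` with `a x (a - x) ≠ 0` and `gcd (a, b, x, y) = 1`. -/
theorem result : ∀ a : ℤ, a ≠ 0 →
    {b : ℤ | ∃ x y : ℤ,
      x * (a ^ 2 + b ^ 2) * (a ^ 2 + b ^ 2 - 2 * a * x - 2 * b * y)
        = a * (x ^ 2 + y ^ 2) * (x ^ 2 + y ^ 2 - 2 * a * x - 2 * b * y) ∧
      a * x * (a - x) ≠ 0 ∧ Int.gcd (Int.gcd a b) (Int.gcd x y) = 1}.Infinite := by
  intro a ha
  rcases lt_or_gt_of_ne ha with hneg | hpos
  · have h := infinite_of_pos (-a) (by linarith)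
    have himg := h.image (f := fun b : ℤ => -b) (neg_injective.injOn)
    refine himg.mono ?_
    rintro _ ⟨b, ⟨x, y, h1, h2, h3⟩, rfl⟩
    refine ⟨-x, -y, ?_, ?_, ?_⟩
    · linear_combination -h1
    · intro h0
      apply h2
      linear_combination -h0
    · simpa [Int.gcd_neg, Int.neg_gcd] using h3
  · exact infinite_of_pos a hpos

end Pool.Agent.Results.MP_bbf25a_nt.VerticalLines
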